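import Pool.Agent.U684.QC.Tot
import Pool.Agent.U684.QC.Num

/-! Primes in many residue classes: from a lower bound in every class to the union, and to one dyadic
scale; the exceptional modulus. -/

set_option autoImplicit false

namespace Pool.Agent.U684.RQ

open Finset

theorem tot_prod (S : Finset ℕ) (hS : ∀ q ∈ S, q.Prime ∧ q ≠ 2) :
    ((Nat.totient (∏ q ∈ S, q) : ℕ) : ℤ) = ∏ q ∈ S, ((q : ℤ) - 1) := by
  classical
  induction S using Finset.induction_on with
  | empty => simp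
  | insert a S ha ih =>
    rw [prod_insert ha, prod_insert ha]
    have h1 : ∀ q ∈ S, q.Prime ∧ q ≠ 2 := fun q hq => hS q (mem_insert_of_mem hq)
    have hap := (hS a (mem_insert_self a S)).1
    have hcop : Nat.Coprime a (∏ q ∈ S, q) := by
      refine Nat.Coprime.prod_right fun q hq => ?_
      rw [Nat.coprime_primes hap (h1 q hq).1]
      rintro rfl
      exact ha hq
    rw [Nat.totient_mul hcop, Nat.cast_mul, ih h1, Nat.totient_prime hap]
    rw [Nat.cast_sub hap.one_lt.le, Nat.cast_one]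

theorem jac_congr {M q p t : ℕ} (hq : q ∣ M) (h : p ≡ t [MOD M]) :
    jacobiSym (p : ℤ) q = jacobiSym (t : ℤ) q := by
  have h1 : p ≡ t [MOD q] := h.of_dvd hq
  rw [jacobiSym.mod_left (p : ℤ) q, jacobiSym.mod_left (t : ℤ) q]
  congr 1
  have h2 : p % q = t % q := h1
  exact_mod_cast h2

/-- sum over the good residue classes -/
theorem sum_classes (K : ℕ) (c : ℝ) (z q₁ : ℕ)
    (h : ∀ q b : ℕ, 0 < q → q ^ 16 ≤ z → ¬ q₁ ∣ q → b.Coprime q → c / (q.totient : ℝ) ≤
      ∑ p ∈ (Ioc z (z ^ K)).filter (fun p => p.Prime ∧ p ≡ b [MOD q]), (1 : ℝ) / p)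
    (S : Finset ℕ) (hS : ∀ q ∈ S, q.Prime ∧ q ≠ 2) (hz : (8 * ∏ q ∈ S, q) ^ 16 ≤ z)
    (hq1 : ¬ q₁ ∣ 8 * ∏ q ∈ S, q) (v : ℕ → ℤ) (hv : ∀ q ∈ S, v q = 1 ∨ v q = -1) :
    c / (4 * 2 ^ S.card) ≤ ∑ p ∈ (Ioc z (z ^ K)).filter (fun p : ℕ => p.Prime ∧ p % 8 = 5 ∧
      ∀ q ∈ S, jacobiSym (p : ℤ) q = v q), (1 : ℝ) / p := by
  classical
  obtain ⟨T, hT1, hT2, hT3⟩ :=
    Pool.Agent.U684.QC.classes 1 5 (Or.inl rfl) (Or.inr rfl) v S hS hv
  set Pr := ∏ q ∈ S, q with hPr
  have hPrpos : 0 < Pr := Finset.prod_pos fun q hq => (hS q hq).1.pos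
  have hcopt : ∀ t ∈ T, Nat.Coprime t (8 * Pr) := by
    intro t ht
    obtain ⟨h8, hj⟩ := hT2 t ht
    have hodd : Nat.Coprime t 8 := by
      have h88 : (8 : ℕ) = 2 ^ 3 := by norm_num
      rw [h88]
      apply Nat.Coprime.pow_right
      rw [Nat.coprime_two_right]
      rcases Nat.even_or_odd t with he | ho
      · exfalso
        obtain ⟨r, hr⟩ := he
        omega
      · exact ho
    refine Nat.Coprime.mul_right hodd ?_
    rw [hPr]
    refine Nat.Coprime.prod_right fun q hq => ?_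
    rw [Nat.coprime_comm, (hS q hq).1.coprime_iff_not_dvd]
    intro hd
    have h1 := hj q hq
    rw [one_mul] at h1
    have h2 : jacobiSym (t : ℤ) q = 0 := by
      have : Fact q.Prime := ⟨(hS q hq).1⟩
      rw [← jacobiSym.legendreSym.to_jacobiSym, legendreSym.eq_zero_iff]
      have h3 : ((t : ℤ) : ZMod q) = 0 := by
        have := (ZMod.natCast_eq_zero_iff t q).2 hd
        exact_mod_cast this
      exact h3
    rw [h2] at h1
    rcases hv q hq with h | h <;> rw [h] at h1 <;> norm_num at h1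
  have hcop8 : Nat.Coprime 8 Pr := by
    refine Nat.Coprime.prod_right fun q hq => ?_
    have h88 : (8 : ℕ) = 2 ^ 3 := by norm_num
    rw [h88]
    apply Nat.Coprime.pow_left
    rw [Nat.coprime_primes Nat.prime_two (hS q hq).1]
    exact fun h => (hS q hq).2 h.symm
  have hφ : ((8 * Pr).totient : ℝ) = 4 * 2 ^ S.card * T.card := by
    rw [Nat.totient_mul hcop8]
    have h8 : Nat.totient 8 = 4 := by decide
    rw [h8]
    have h1 := tot_prod S hS
    rw [hT3] at h1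
    have h2 : ((Nat.totient Pr : ℕ) : ℝ) = 2 ^ S.card * T.card := by exact_mod_cast h1
    push_cast
    rw [h2]
    ring
  have hφ0 : (0 : ℝ) < ((8 * Pr).totient : ℝ) := by
    have : 0 < (8 * Pr).totient := Nat.totient_pos.2 (by omega)
    exact_mod_cast this
  have hT0 : (0 : ℝ) < T.card := by
    rcases Nat.eq_zero_or_pos T.card with h0 | h0
    · rw [h0, Nat.cast_zero, mul_zero] at hφ
      exact absurd hφ hφ0.ne'
    · exact_mod_cast h0
  have hsum : ∀ t ∈ T, c / ((8 * Pr).totient : ℝ) ≤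
      ∑ p ∈ (Ioc z (z ^ K)).filter (fun p => p.Prime ∧ p ≡ t [MOD 8 * Pr]), (1 : ℝ) / p :=
    fun t ht => h (8 * Pr) t (by omega) hz hq1 (hcopt t ht)
  have hA := Finset.sum_le_sum hsum
  rw [sum_const, nsmul_eq_mul] at hA
  have hB : (T.card : ℝ) * (c / ((8 * Pr).totient : ℝ)) = c / (4 * 2 ^ S.card) := by
    rw [hφ]
    field_simp
  rw [hB] at hA
  refine hA.trans ?_
  rw [← sum_biUnion]
  · apply sum_le_sum_of_subset_of_nonneg
    · intro p hp
      rw [mem_biUnion] at hp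
      obtain ⟨t, ht, hp⟩ := hp
      rw [mem_filter] at hp ⊢
      obtain ⟨h8, hj⟩ := hT2 t ht
      refine ⟨hp.1, hp.2.1, ?_, fun q hq => ?_⟩
      · have h1 : p ≡ t [MOD 8] := hp.2.2.of_dvd (Dvd.intro _ rfl)
        have h2 : p % 8 = t % 8 := h1
        rw [h2]
        omega
      · have := hj q hq
        rw [one_mul] at this
        rw [← this]
        exact jac_congr (dvd_mul_of_dvd_right (dvd_prod_of_mem _ hq) 8) hp.2.2
    · intro p _ _
      positivity
  · intro t ht t' ht' hne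
    simp only [Function.onFun]
    rw [disjoint_left]
    intro p hp hp'
    rw [mem_filter] at hp hp'
    have h1 : t ≡ t' [MOD 8 * Pr] := hp.2.2.symm.trans hp'.2.2
    exact hne (Nat.ModEq.eq_of_lt_of_lt h1 (hT1 t ht) (hT1 t' ht'))

/-- a good dyadic scale -/
theorem dyad (z K : ℕ) (hz : 3 ≤ z) (hK : 1 ≤ K) (A : ℕ → Prop) [DecidablePred A] (σ : ℝ)
    (hσ0 : 0 < σ) (hσ : σ ≤ ∑ p ∈ (Ioc z (z ^ K)).filter A, (1 : ℝ) / p) :
    ∃ Y : ℕ, z ≤ Y ∧ Y < z ^ K ∧
      σ * Y / (3 * K * Real.log Y) ≤ (((Ioc Y (2 * Y)).filter A).card : ℝ) := by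
  classical
  set J := Nat.log 2 (z ^ K) + 1 with hJ
  have hJ1 : z ^ K < 2 ^ J := Nat.lt_pow_succ_log_self (by norm_num) _
  have hz0 : 0 < z := by omega
  have hzr : (3 : ℝ) ≤ z := by exact_mod_cast hz
  have hlogz : 1 ≤ Real.log z := by
    rw [Real.le_log_iff_exp_le (by linarith)]
    have := Real.exp_one_lt_d9
    linarith
  have hJr : (J : ℝ) ≤ 3 * K * Real.log z := by
    have h1 : (2 : ℕ) ^ (Nat.log 2 (z ^ K)) ≤ z ^ K := Nat.pow_log_le_self 2 (by positivity)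
    have h2 : ((2 : ℝ)) ^ (Nat.log 2 (z ^ K)) ≤ (z : ℝ) ^ K := by exact_mod_cast h1
    have h3 := Real.log_le_log (by positivity) h2
    rw [Real.log_pow, Real.log_pow] at h3
    have h4 := Real.log_two_gt_d9
    have h5 : (0 : ℝ) ≤ (Nat.log 2 (z ^ K) : ℝ) := Nat.cast_nonneg _
    have hKr : (1 : ℝ) ≤ K := by exact_mod_cast hK
    have h6 : (1 : ℝ) ≤ K * Real.log z := by nlinarith
    rw [hJ]
    push_cast
    nlinarith
  set F := (Ioc z (z ^ K)).filter A with hF
  set g : ℕ → ℕ := fun p => Nat.log 2 ((p - 1) / z) with hg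
  have hmem : ∀ p ∈ F, 2 ^ (g p) * z < p ∧ p ≤ 2 * (2 ^ (g p) * z) ∧ p ≤ z ^ K ∧ A p := by
    intro p hp
    rw [hF, mem_filter, mem_Ioc] at hp
    obtain ⟨⟨h1, h2⟩, h3⟩ := hp
    have h4 : (p - 1) / z ≠ 0 := by
      have : 0 < (p - 1) / z := Nat.div_pos (by omega) hz0
      omega
    have h5 : 2 ^ (g p) ≤ (p - 1) / z := Nat.pow_log_le_self 2 h4
    have h6 : (p - 1) / z < 2 ^ (g p + 1) := Nat.lt_pow_succ_log_self (by norm_num) _
    have h7 : 2 ^ (g p) * z ≤ p - 1 := (Nat.le_div_iff_mul_le hz0).1 h5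
    have h8 : p - 1 < 2 ^ (g p + 1) * z := (Nat.div_lt_iff_lt_mul hz0).1 h6
    rw [pow_succ] at h8
    have h9 : 2 ^ (g p) * 2 * z = 2 * (2 ^ (g p) * z) := by ring
    exact ⟨by omega, by omega, h2, h3⟩
  have hmaps : ∀ p ∈ F, g p ∈ range J := by
    intro p hp
    obtain ⟨h1, h2, h3, -⟩ := hmem p hp
    rw [mem_range]
    by_contra hcon
    push Not at hcon
    have h9 : 2 ^ J ≤ 2 ^ (g p) := Nat.pow_le_pow_right (by norm_num) hcon
    have h10 : 2 ^ (g p) ≤ 2 ^ (g p) * z := Nat.le_mul_of_pos_right _ hz0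
    omega
  rw [← sum_fiberwise_of_maps_to hmaps] at hσ
  have hJ0 : (0 : ℝ) < J := by
    have : 0 < J := by omega
    exact_mod_cast this
  have h1 : ∑ i ∈ range J, σ / J ≤ ∑ i ∈ range J, ∑ p ∈ F with g p = i, (1 : ℝ) / p := by
    rw [sum_const, card_range, nsmul_eq_mul, mul_div_cancel₀ _ hJ0.ne']
    exact hσ
  obtain ⟨i, hi, h2⟩ := exists_le_of_sum_le (by
    rw [nonempty_range_iff]; omega) h1
  set Y := 2 ^ i * z with hY
  have hYz : z ≤ Y := Nat.le_mul_of_pos_left _ (by positivity)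
  have hYr : (3 : ℝ) ≤ Y := by exact_mod_cast hz.trans hYz
  have hne : (F.filter (fun p => g p = i)).Nonempty := by
    rw [nonempty_iff_ne_empty]
    intro h
    rw [h, sum_empty] at h2
    have : 0 < σ / J := by positivity
    linarith
  refine ⟨Y, hYz, ?_, ?_⟩
  · obtain ⟨p, hp⟩ := hne
    rw [mem_filter] at hp
    obtain ⟨h3, h4, h5, -⟩ := hmem p hp.1
    rw [hp.2] at h3
    exact lt_of_lt_of_le h3 h5
  · have h3 : ∑ p ∈ F with g p = i, (1 : ℝ) / p ≤
        (((Ioc Y (2 * Y)).filter A).card : ℝ) * (1 / Y) := by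
      have h4 : ∑ p ∈ F with g p = i, (1 : ℝ) / p ≤
          ∑ p ∈ F with g p = i, (1 : ℝ) / Y := by
        apply sum_le_sum
        intro p hp
        rw [mem_filter] at hp
        obtain ⟨h3, -, -, -⟩ := hmem p hp.1
        rw [hp.2] at h3
        apply one_div_le_one_div_of_le (by linarith)
        exact_mod_cast h3.le
      refine h4.trans ?_
      rw [sum_const, nsmul_eq_mul]
      apply mul_le_mul_of_nonneg_right _ (by positivity)
      have h5 : (F.filter (fun p => g p = i)).card ≤ ((Ioc Y (2 * Y)).filter A).card := by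
        apply card_le_card
        intro p hp
        rw [mem_filter] at hp
        obtain ⟨h3, h4, h5, h6⟩ := hmem p hp.1
        rw [hp.2] at h3 h4
        rw [mem_filter, mem_Ioc]
        exact ⟨⟨h3, h4⟩, h6⟩
      exact_mod_cast h5
    have h4 : σ / J ≤ (((Ioc Y (2 * Y)).filter A).card : ℝ) * (1 / Y) := h2.trans h3
    have hYY : (0 : ℝ) < Y := by linarith
    have h5 : Real.log z ≤ Real.log Y :=
      Real.log_le_log (by linarith) (by exact_mod_cast hYz)
    have hKr : (0 : ℝ) < K := by exact_mod_cast hK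
    have h6 : (J : ℝ) ≤ 3 * K * Real.log Y := hJr.trans (by gcongr)
    have h7 : σ * Y / (3 * K * Real.log Y) ≤ σ * Y / J := by
      gcongr
    refine h7.trans ?_
    have h8 : σ * Y / J = σ / J * Y := by ring
    rw [h8]
    calc σ / J * Y ≤ (((Ioc Y (2 * Y)).filter A).card : ℝ) * (1 / Y) * Y := by gcongr
      _ = _ := by field_simp

/-- the exceptional modulus has a large prime factor, or does not matter -/
theorem exc (q₁ : ℕ) (h8 : 8 < q₁) : ∃ q₀ : ℕ, (q₀ = 0 ∨ (q₀.Prime ∧ q₁ ≤ 8 * 4 ^ q₀)) ∧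
    ∀ S : Finset ℕ, (∀ q ∈ S, q.Prime ∧ q ≠ 2) → q₀ ∉ S → ¬ q₁ ∣ 8 * ∏ q ∈ S, q := by
  classical
  by_cases hT : ∃ S : Finset ℕ, (∀ q ∈ S, q.Prime ∧ q ≠ 2) ∧ q₁ ∣ 8 * ∏ q ∈ S, q
  · obtain ⟨S, hS, hd⟩ := hT
    set F := q₁.primeFactors.erase 2 with hF
    have hFS : F ⊆ S := by
      intro p hp
      rw [hF, mem_erase, Nat.mem_primeFactors] at hp
      obtain ⟨hp2, hpp, hpd, -⟩ := hp
      have h1 : p ∣ 8 * ∏ q ∈ S, q := hpd.trans hd
      rcases (Nat.Prime.dvd_mul hpp).1 h1 with h | h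
      · exfalso
        have h88 : (8 : ℕ) = 2 ^ 3 := by norm_num
        rw [h88] at h
        exact hp2 ((Nat.prime_dvd_prime_iff_eq hpp Nat.prime_two).1 (hpp.dvd_of_dvd_pow h))
      · obtain ⟨q, hq, h2⟩ := (Prime.dvd_finsetProd_iff hpp.prime _).1 h
        rw [(Nat.prime_dvd_prime_iff_eq hpp (hS q hq).1).1 h2]
        exact hq
    have hdF : q₁ ∣ 8 * ∏ q ∈ F, q := by
      have h1 : ∏ q ∈ S, q = (∏ q ∈ S \ F, q) * ∏ q ∈ F, q := (prod_sdiff hFS).symm
      rw [h1] at hd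
      have hcop : Nat.Coprime q₁ (∏ q ∈ S \ F, q) := by
        refine Nat.Coprime.prod_right fun q hq => ?_
        rw [mem_sdiff] at hq
        rw [Nat.coprime_comm, (hS q hq.1).1.coprime_iff_not_dvd]
        intro hqd
        apply hq.2
        rw [hF, mem_erase, Nat.mem_primeFactors]
        exact ⟨(hS q hq.1).2, (hS q hq.1).1, hqd, by omega⟩
      have h2 : 8 * ((∏ q ∈ S \ F, q) * ∏ q ∈ F, q) = (∏ q ∈ S \ F, q) * (8 * ∏ q ∈ F, q) := by
        ring
      rw [h2] at hd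
      exact hcop.dvd_of_dvd_mul_left hd
    have hne : F.Nonempty := by
      rw [nonempty_iff_ne_empty]
      intro h
      rw [h, prod_empty, mul_one] at hdF
      have := Nat.le_of_dvd (by norm_num) hdF
      omega
    set q₀ := F.max' hne with hq₀
    have hq₀F : q₀ ∈ F := F.max'_mem hne
    have hq₀S := hFS hq₀F
    have hq₀p := (hS q₀ hq₀S)
    refine ⟨q₀, Or.inr ⟨hq₀p.1, ?_⟩, ?_⟩
    · have h1 : ∏ q ∈ F, q ≤ primorial q₀ := by
        unfold primorial
        apply Finset.prod_le_prod_of_subset_of_one_le'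
        · intro q hq
          rw [mem_filter, mem_range]
          exact ⟨Nat.lt_succ_of_le (F.le_max' q hq), (hS q (hFS hq)).1⟩
        · intro q hq _
          rw [mem_filter] at hq
          exact hq.2.one_lt.le
      have h2 : 0 < ∏ q ∈ F, q := Finset.prod_pos fun q hq => (hS q (hFS hq)).1.pos
      have h3 := Nat.le_of_dvd (by omega) hdF
      have h4 := primorial_le_four_pow q₀
      calc q₁ ≤ 8 * ∏ q ∈ F, q := h3
        _ ≤ 8 * 4 ^ q₀ := by gcongr; exact h1.trans h4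
    · intro S' hS' hn hd'
      have hq₀d : q₀ ∣ q₁ := by
        rw [hF, mem_erase, Nat.mem_primeFactors] at hq₀F
        exact hq₀F.2.2.1
      rcases (Nat.Prime.dvd_mul hq₀p.1).1 (hq₀d.trans hd') with h | h
      · have h88 : (8 : ℕ) = 2 ^ 3 := by norm_num
        rw [h88] at h
        exact hq₀p.2 ((Nat.prime_dvd_prime_iff_eq hq₀p.1 Nat.prime_two).1
          (hq₀p.1.dvd_of_dvd_pow h))
      · obtain ⟨q, hq, h2⟩ := (Prime.dvd_finsetProd_iff hq₀p.1.prime _).1 h
        rw [(Nat.prime_dvd_prime_iff_eq hq₀p.1 (hS' q hq).1).1 h2] at hn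
        exact hn hq
  · push Not at hT
    exact ⟨0, Or.inl rfl, fun S hS _ => hT S hS⟩

end Pool.Agent.U684.RQ
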