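import Pool.Agent.R345.IXEnd

/-! Inert primes in real quadratic fields with `d ≡ 5 mod 8`, and the classes of the other small primes. -/

set_option autoImplicit false

namespace Pool.Agent.U684.RQ

open NumberField Pool.Agent.H38R2.CG
open scoped Classical

/-- inert primes are principal -/
theorem inert (K : Type) [Field K] [NumberField K] (h2 : Module.finrank ℚ K = 2) (d : ℕ)
    (hsq : Squarefree d) (hx : ∃ x : K, x ^ 2 = (d : K)) (hd : d % 8 = 5) (q : ℕ) (hq : q.Prime)
    (hj : q = 2 ∨ jacobiSym (d : ℤ) q = -1) (P : Ideal (𝓞 K)) (hP : P.IsPrime)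
    (hqP : (q : 𝓞 K) ∈ P) : P = Ideal.span {(q : 𝓞 K)} := by
  have hd1 : 1 < d := by omega
  have hdisc := T_N0d K d hd1 hsq h2 hx
  have h4 : d % 4 = 1 := by omega
  rw [if_pos h4] at hdisc
  have hF : IsFund d := ⟨hd1, Or.inl ⟨h4, hsq⟩⟩
  have hchi : chi (d : ℤ) q = -1 := by
    unfold chi
    rcases hj with rfl | hj
    · rw [padicValNat.self (by norm_num)]
      have : (2 : ℕ) / 2 ^ 1 = 1 := by norm_num
      rw [this, jacobiSym.one_right, pow_one, mul_one]
      unfold chi2
      rw [if_neg (by omega), if_pos (by omega)]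
    · have hq2 : q ≠ 2 := by
        rintro rfl
        have : jacobiSym (d : ℤ) 2 = -1 := hj
        -- not needed: the value of chi at 2 is -1 anyway
        have h0 := jacobiSym.mod_left (d : ℤ) 2
        have h1 : (d : ℤ) % (2 : ℕ) = 1 := by push_cast; omega
        rw [h1, jacobiSym.one_left] at h0
        rw [h0] at this
        norm_num at this
      have hv : padicValNat 2 q = 0 := by
        apply padicValNat.eq_zero_of_not_dvd
        intro h
        exact hq2 ((Nat.prime_dvd_prime_iff_eq Nat.prime_two hq).1 h).symm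
      rw [hv, pow_zero, one_mul, pow_zero, Nat.div_one, hj]
  have hpr := ((T_SPL T_N0) K d hF h2 hdisc q hq).2.2 hchi
  have hq0 : (q : 𝓞 K) ≠ 0 := by
    have : (q : ℕ) ≠ 0 := hq.ne_zero
    exact_mod_cast this
  have hne : Ideal.span {(q : 𝓞 K)} ≠ ⊥ := by
    rw [Ne, Ideal.span_singleton_eq_bot]
    exact hq0
  have hmax : (Ideal.span {(q : 𝓞 K)}).IsMaximal := hpr.isMaximal hne
  exact (hmax.eq_of_le hP.ne_top ((Ideal.span_singleton_le_iff_mem P).2 hqP)).symm

end Pool.Agent.U684.RQ
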