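import Pool.Agent.Y353.PS.Page
import Pool.Agent.U684.RQ.Dya

/-! Primes `p ≡ 5 mod 8` with prescribed values of `(p/q)` for the `q` of a set with product at most a
small power of `X`. -/

set_option autoImplicit false

namespace Pool.Agent.U684.RQ

open Finset

theorem exp_big (C ℓ : ℝ) (h1 : 12 ≤ ℓ) (h2 : 12 * C ≤ ℓ) : ℓ ^ 2 + C * ℓ ≤ Real.exp ℓ := by
  have h3 := Real.pow_div_factorial_le_exp ℓ (by linarith) 3
  have h4 : ((Nat.factorial 3 : ℕ) : ℝ) = 6 := by norm_num [Nat.factorial]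
  rw [h4] at h3
  have h5 : ℓ ^ 2 ≤ ℓ ^ 3 / 12 := by nlinarith [sq_nonneg ℓ]
  have h6 : C * ℓ ≤ ℓ ^ 3 / 12 := by
    have h7 : C ≤ ℓ ^ 2 / 12 := by nlinarith
    nlinarith
  linarith

theorem root_ex (X K Z : ℕ) (hK : 1 ≤ K) (hZ : 2 ≤ Z) (hX : Z ^ K ≤ X) :
    ∃ z : ℕ, Z ≤ z ∧ z ^ K ≤ X ∧ X < z ^ (2 * K) := by
  classical
  set z := Nat.findGreatest (fun z => z ^ K ≤ X) X with hz
  have hZX : Z ≤ X := (Nat.le_self_pow (by omega) Z).trans hX
  have h1 : z ^ K ≤ X := Nat.findGreatest_spec (P := fun z => z ^ K ≤ X) hZX hX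
  have h2 : Z ≤ z := Nat.le_findGreatest hZX hX
  have h3 : X < (z + 1) ^ K := by
    by_contra hcon
    push Not at hcon
    have h4 : z + 1 ≤ X := (Nat.le_self_pow (by omega) (z + 1)).trans hcon
    have h5 : z + 1 ≤ z := Nat.le_findGreatest h4 hcon
    omega
  refine ⟨z, h2, h1, lt_of_lt_of_le h3 ?_⟩
  rw [pow_mul]
  apply Nat.pow_le_pow_left
  nlinarith

theorem size_bd (L : ℕ) (C β : ℝ) (hC : 0 < C) (X Y n : ℕ) (hXY : X ≤ Y ^ L) (hYX : Y ≤ X)
    (hβ : (L : ℝ) + 1 ≤ β) (hℓ : 12 ≤ Real.log (Real.log Y))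
    (hℓ2 : 12 * Real.log C ≤ Real.log (Real.log Y))
    (hn : (n : ℝ) ≤ Real.log X / Real.log (Real.log X)) :
    (Y : ℝ) ^ (1 - β / Real.log (Real.log Y)) ≤ Y / (C * (2 ^ n * Real.log Y)) := by
  set ℓ := Real.log (Real.log Y) with hl
  have hℓ0 : 0 < ℓ := by linarith
  have hlY : 0 < Real.log Y := by
    by_contra hcon
    push Not at hcon
    rcases eq_or_lt_of_le hcon with h | h
    · rw [hl, h, Real.log_zero] at hℓ0
      exact lt_irrefl _ hℓ0
    · have h1 : (0 : ℝ) ≤ Real.log Y := Real.log_natCast_nonneg Y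
      linarith
  have hexp : Real.exp ℓ = Real.log Y := Real.exp_log hlY
  have hY0 : (0 : ℝ) < Y := by
    rcases Nat.eq_zero_or_pos Y with h | h
    · rw [h] at hlY
      simp at hlY
    · exact_mod_cast h
  have hlX : Real.log Y ≤ Real.log X := Real.log_le_log hY0 (by exact_mod_cast hYX)
  have hX0 : (0 : ℝ) < X := lt_of_lt_of_le hY0 (by exact_mod_cast hYX)
  have hlX2 : Real.log X ≤ L * Real.log Y := by
    rw [← Real.log_pow]
    exact Real.log_le_log hX0 (by exact_mod_cast hXY)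
  have hℓX : ℓ ≤ Real.log (Real.log X) := Real.log_le_log hlY hlX
  have hn2 : (n : ℝ) ≤ L * Real.log Y / ℓ := by
    refine hn.trans ?_
    gcongr
  have hmain : (n : ℝ) * Real.log 2 + ℓ + Real.log C ≤ β * Real.log Y / ℓ := by
    have h1 := exp_big (Real.log C) ℓ hℓ hℓ2
    rw [hexp] at h1
    have h2 : ℓ + Real.log C ≤ Real.log Y / ℓ := by
      rw [le_div_iff₀ hℓ0]
      linarith
    have h3 : (n : ℝ) * Real.log 2 ≤ L * Real.log Y / ℓ := by
      have h4 : Real.log 2 ≤ 1 := by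
        have := Real.log_two_lt_d9
        linarith
      have h5 : (0 : ℝ) ≤ n := Nat.cast_nonneg _
      nlinarith
    have h4 : L * Real.log Y / ℓ + Real.log Y / ℓ ≤ β * Real.log Y / ℓ := by
      rw [← add_div]
      gcongr
      nlinarith
    linarith
  have h2n : (0 : ℝ) < 2 ^ n := by positivity
  rw [le_div_iff₀ (by positivity)]
  have hlog : Real.log ((Y : ℝ) ^ (1 - β / ℓ) * (C * (2 ^ n * Real.log Y))) ≤ Real.log Y := by
    rw [Real.log_mul (by positivity) (by positivity), Real.log_mul hC.ne' (by positivity),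
      Real.log_mul (by positivity) hlY.ne', Real.log_pow, Real.log_rpow hY0, ← hl]
    have : (1 - β / ℓ) * Real.log Y = Real.log Y - β * Real.log Y / ℓ := by ring
    rw [this]
    linarith
  exact (Real.log_le_log_iff (by positivity) hY0).1 hlog

theorem primes_main : ∃ (L : ℕ) (c β : ℝ), 4 ≤ L ∧ 0 < c ∧ 0 < β ∧ ∀ B : ℝ, ∃ X0 : ℕ,
    ∀ X : ℕ, X0 ≤ X → ∃ q₀ : ℕ, (q₀ = 0 ∨ (q₀.Prime ∧ B * Real.log (Real.log X) < q₀)) ∧
      ∀ S : Finset ℕ, (∀ q ∈ S, q.Prime ∧ q ≠ 2) → q₀ ∉ S → (∏ q ∈ S, q) ^ L ≤ X →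
      ∀ v : ℕ → ℤ, (∀ q ∈ S, v q = 1 ∨ v q = -1) → ∃ Y : ℕ, X ≤ Y ^ L ∧ Y ≤ X ∧
        c * Y / (2 ^ S.card * Real.log Y) ≤ (((Ioc Y (2 * Y)).filter (fun p : ℕ =>
          p.Prime ∧ p % 8 = 5 ∧ ∀ q ∈ S, jacobiSym (p : ℤ) q = v q)).card : ℝ) ∧
        (Y : ℝ) ^ (1 - β / Real.log (Real.log Y)) ≤ (((Ioc Y (2 * Y)).filter (fun p : ℕ =>
          p.Prime ∧ p % 8 = 5 ∧ ∀ q ∈ S, jacobiSym (p : ℤ) q = v q)).card : ℝ) := by
  classical
  obtain ⟨K, c, hK, hc, hpage⟩ := Pool.Agent.Y353.PS.page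
  have hKr : (1 : ℝ) ≤ K := by exact_mod_cast hK
  refine ⟨64 * K, c / (12 * K), ((64 * K : ℕ) : ℝ) + 1, by omega, by positivity, by positivity,
    fun B₀ => ?_⟩
  set B : ℝ := max B₀ 0 with hB
  have hB0 : 0 ≤ B := le_max_right _ _
  set B' : ℕ := ⌈3 * B⌉₊ + 4 with hB'
  have hB'r : 3 * B + 4 ≤ B' := by
    rw [hB']; push_cast
    have := Nat.le_ceil (3 * B)
    linarith
  obtain ⟨z0, hz0⟩ := hpage B'
  set ℓ0 : ℝ := max (max 12 (12 * Real.log (12 * K / c))) (Real.log (2 * K)) with hℓ0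
  set Z : ℕ := max (max z0 (8 ^ 32)) ⌈Real.exp (Real.exp ℓ0)⌉₊ with hZ
  have h8 : 2 ≤ 8 ^ 32 := by norm_num
  have hZ2 : 2 ≤ Z := h8.trans ((le_max_right _ _).trans (le_max_left _ _))
  refine ⟨Z ^ K, fun X hX => ?_⟩
  obtain ⟨z, hzZ, hzK, hzX⟩ := root_ex X K Z hK hZ2 hX
  have hzz0 : z0 ≤ z := ((le_max_left _ _).trans (le_max_left _ _)).trans hzZ
  have hz8 : 8 ^ 32 ≤ z := ((le_max_right _ _).trans (le_max_left _ _)).trans hzZ
  have hzℓ' : Real.exp (Real.exp ℓ0) ≤ z := by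
    have h1 : (⌈Real.exp (Real.exp ℓ0)⌉₊ : ℝ) ≤ z := by exact_mod_cast (le_max_right _ _).trans hzZ
    exact (Nat.le_ceil _).trans h1
  have hz0' : (0 : ℝ) < z := lt_of_lt_of_le (Real.exp_pos _) hzℓ'
  have hlz : Real.exp ℓ0 ≤ Real.log z := (Real.le_log_iff_exp_le hz0').2 hzℓ'
  have hlz0 : 0 < Real.log z := lt_of_lt_of_le (Real.exp_pos _) hlz
  have hllz : ℓ0 ≤ Real.log (Real.log z) := (Real.le_log_iff_exp_le hlz0).2 hlz
  have hℓ12 : 12 ≤ ℓ0 := (le_max_left _ _).trans (le_max_left _ _)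
  have hlz8 : 8 < Real.log z := by
    have h1 : (12 : ℝ) + 1 ≤ Real.exp 12 := Real.add_one_le_exp 12
    have h2 : Real.exp 12 ≤ Real.exp ℓ0 := Real.exp_le_exp.2 hℓ12
    linarith
  obtain ⟨q₁, hq₁, hprog⟩ := hz0 z hzz0
  have hq₁8 : 8 < q₁ := by
    have h1 : Real.log z ≤ (Real.log z) ^ B' := le_self_pow₀ (by linarith) (by omega)
    have h2 : (8 : ℝ) < q₁ := by linarith
    exact_mod_cast h2
  obtain ⟨q₀, hq₀, hexc⟩ := exc q₁ hq₁8
  have hz3 : 3 ≤ z := le_trans (by norm_num) hz8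
  have hzX' : z ≤ X := (Nat.le_self_pow (by omega) z).trans hzK
  have hX0 : (0 : ℝ) < X := lt_of_lt_of_le hz0' (by exact_mod_cast hzX')
  have hllX : Real.log (Real.log X) ≤ 2 * Real.log (Real.log z) := by
    have h1 : Real.log X ≤ (2 * K : ℕ) * Real.log z := by
      rw [← Real.log_pow]
      exact Real.log_le_log hX0 (by exact_mod_cast hzX.le)
    have h2 : 0 < Real.log X :=
      lt_of_lt_of_le hlz0 (Real.log_le_log hz0' (by exact_mod_cast hzX'))
    have h3 := Real.log_le_log h2 h1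
    rw [Real.log_mul (by positivity) hlz0.ne'] at h3
    push_cast at h3
    have h4 : Real.log (2 * K) ≤ ℓ0 := le_max_right _ _
    linarith
  refine ⟨q₀, ?_, ?_⟩
  · rcases hq₀ with h | ⟨h1, h2⟩
    · exact Or.inl h
    · refine Or.inr ⟨h1, ?_⟩
      have h3 : (Real.log z) ^ B' < 8 * 4 ^ q₀ := by
        refine lt_of_lt_of_le hq₁ ?_
        exact_mod_cast h2
      have h4 := Real.log_lt_log (by positivity) h3
      rw [Real.log_pow, Real.log_mul (by norm_num) (by positivity), Real.log_pow] at h4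
      have h5 : Real.log 8 = 3 * Real.log 2 := by
        rw [show (8 : ℝ) = 2 ^ 3 by norm_num, Real.log_pow]; norm_num
      have h6 : Real.log 4 = 2 * Real.log 2 := by
        rw [show (4 : ℝ) = 2 ^ 2 by norm_num, Real.log_pow]; norm_num
      rw [h5, h6] at h4
      have h7 := Real.log_two_lt_d9
      have h8' := Real.log_two_gt_d9
      set u := Real.log (Real.log z) with hu
      have hu12 : 12 ≤ u := hℓ12.trans hllz
      have h9 : (3 * B + 4) * u ≤ B' * u := by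
        apply mul_le_mul_of_nonneg_right hB'r (by linarith)
      have h10 : B₀ * Real.log (Real.log X) ≤ B * (2 * u) := by
        have hX1 : 0 ≤ Real.log (Real.log X) := by
          have h2 : Real.log z ≤ Real.log X := Real.log_le_log hz0' (by exact_mod_cast hzX')
          exact Real.log_nonneg (by linarith)
        calc B₀ * Real.log (Real.log X) ≤ B * Real.log (Real.log X) :=
              mul_le_mul_of_nonneg_right (le_max_left _ _) hX1
          _ ≤ B * (2 * u) := mul_le_mul_of_nonneg_left hllX hB0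
      have hq0r : (0 : ℝ) ≤ q₀ := Nat.cast_nonneg _
      have h11 : (q₀ : ℝ) * (2 * Real.log 2) ≤ q₀ * (3 / 2) := by
        apply mul_le_mul_of_nonneg_left _ hq0r
        linarith
      have h12 : 0 ≤ B * u := by positivity
      nlinarith
  · intro S hS hq₀S hSX v hv
    have h1 : (∏ q ∈ S, q) ^ 32 ≤ z := by
      have h2 : ((∏ q ∈ S, q) ^ 32) ^ (2 * K) < z ^ (2 * K) := by
        rw [← pow_mul]
        have : 32 * (2 * K) = 64 * K := by ring
        rw [this]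
        exact lt_of_le_of_lt hSX hzX
      exact (lt_of_pow_lt_pow_left₀ _ (Nat.zero_le _) h2).le
    have h2 : (8 * ∏ q ∈ S, q) ^ 16 ≤ z := by
      have h3 : ((8 * ∏ q ∈ S, q) ^ 16) ^ 2 ≤ z ^ 2 := by
        have h4 : ((8 * ∏ q ∈ S, q) ^ 16) ^ 2 = 8 ^ 32 * (∏ q ∈ S, q) ^ 32 := by
          rw [← pow_mul, mul_pow]
        rw [h4, sq]
        exact Nat.mul_le_mul hz8 h1
      exact (Nat.pow_le_pow_iff_left (by norm_num)).1 h3
    have h3 := sum_classes K c z q₁ hprog S hS h2 (hexc S hS hq₀S) v hv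
    obtain ⟨Y, hY1, hY2, hY3⟩ := dyad z K hz3 hK (fun p : ℕ =>
          p.Prime ∧ p % 8 = 5 ∧ ∀ q ∈ S, jacobiSym (p : ℤ) q = v q) (c / (4 * 2 ^ S.card))
          (by positivity) h3
    have hY0 : (0 : ℝ) < Y := lt_of_lt_of_le hz0' (by exact_mod_cast hY1)
    have hlY : Real.log z ≤ Real.log Y := Real.log_le_log hz0' (by exact_mod_cast hY1)
    have hlY0 : 0 < Real.log Y := lt_of_lt_of_le hlz0 hlY
    have hllY : ℓ0 ≤ Real.log (Real.log Y) := hllz.trans (Real.log_le_log hlz0 hlY)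
    have hXY : X ≤ Y ^ (64 * K) := by
      calc X ≤ z ^ (2 * K) := hzX.le
        _ ≤ Y ^ (2 * K) := Nat.pow_le_pow_left hY1 _
        _ ≤ Y ^ (64 * K) := Nat.pow_le_pow_right (by omega) (by omega)
    have hYX : Y ≤ X := hY2.le.trans hzK
    have e1 : c / (4 * 2 ^ S.card) * Y / (3 * K * Real.log Y) =
        c / (12 * K) * Y / (2 ^ S.card * Real.log Y) := by
      field_simp
      ring
    have e2 : c / (12 * K) * Y / (2 ^ S.card * Real.log Y) =
        Y / ((12 * K / c) * (2 ^ S.card * Real.log Y)) := by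
      field_simp
    rw [e1] at hY3
    refine ⟨Y, hXY, hYX, hY3, le_trans ?_ hY3⟩
    rw [e2]
    have hlX : Real.log Y ≤ Real.log X := Real.log_le_log hY0 (by exact_mod_cast hYX)
    have hcard : (S.card : ℝ) ≤ Real.log X / Real.log (Real.log X) := by
      have hlX0 : 0 < Real.log X := lt_of_lt_of_le hlY0 hlX
      have h4 := Pool.Agent.U684.QC.card_bd X (Real.log (Real.log X)) (by
        have : Real.log (Real.log Y) ≤ Real.log (Real.log X) := Real.log_le_log hlY0 hlX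
        linarith) (Real.exp_log hlX0).symm S (fun q hq => (hS q hq).1.one_lt.le) (by
        refine le_trans ?_ hSX
        apply Nat.pow_le_pow_right
        · exact Finset.prod_pos fun q hq => (hS q hq).1.pos
        · omega)
      rwa [Real.exp_log hlX0] at h4
    exact size_bd (64 * K) (12 * K / c) _ (by positivity) X Y S.card hXY hYX le_rfl
      (by linarith) (le_trans (le_trans (le_max_right _ _) (le_max_left _ _)) hllY) hcard

end Pool.Agent.U684.RQ
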